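import Pool.Agent.H17.GS.Stm
import Pool.Agent.H77.TF.Pri

/-! Project GS, module EQV: Jacobian syzygies and logarithmic fields. -/

set_option autoImplicit false
set_option linter.all false

open MvPolynomial Module Pool.Agent.H77.TF

namespace Pool.Agent.H23.GS

/-- the homogeneous component of the product with a homogeneous polynomial (from helper64) -/
theorem comp_mul {K : Type} [Field K] {σ : Type} (f g : MvPolynomial σ K) {e n : ℕ} (hg : g.IsHomogeneous e) :
    homogeneousComponent n (f * g) =
      (if e ≤ n then homogeneousComponent (n - e) f else 0) * g := by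
  conv_lhs => rw [← sum_homogeneousComponent f, Finset.sum_mul, map_sum]
  have h1 : ∀ i, homogeneousComponent n (homogeneousComponent i f * g) =
      if n = i + e then homogeneousComponent i f * g else 0 := fun i =>
    homogeneousComponent_of_mem ((homogeneousComponent_isHomogeneous i f).mul hg)
  rw [Finset.sum_congr rfl fun i _ => h1 i]
  by_cases h : e ≤ n
  · rw [if_pos h]
    have h2 : ∀ i, (if n = i + e then homogeneousComponent i f * g else 0) =
        if i = n - e then homogeneousComponent (n - e) f * g else 0 := by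
      intro i
      by_cases h3 : i = n - e
      · rw [if_pos h3, if_pos (by omega), h3]
      · rw [if_neg h3, if_neg (by omega)]
    rw [Finset.sum_congr rfl fun i _ => h2 i, Finset.sum_ite_eq']
    by_cases h4 : n - e ∈ Finset.range (f.totalDegree + 1)
    · rw [if_pos h4]
    · rw [if_neg h4, homogeneousComponent_eq_zero, zero_mul]
      rw [Finset.mem_range] at h4
      omega
  · rw [if_neg h, zero_mul]
    refine Finset.sum_eq_zero fun i _ => ?_
    rw [if_neg (by omega)]

section
variable {K : Type} [Field K]

/-- the derivative along `v` -/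
noncomputable def V (v : Fin 3 → MvPolynomial (Fin 3) K) (f : MvPolynomial (Fin 3) K) : MvPolynomial (Fin 3) K :=
  ∑ j, v j * pderiv j f

theorem V_mul (v : Fin 3 → MvPolynomial (Fin 3) K) (f g : MvPolynomial (Fin 3) K) :
    V v (f * g) = f * V v g + g * V v f := by
  unfold V
  rw [Finset.mul_sum, Finset.mul_sum, ← Finset.sum_add_distrib]
  refine Finset.sum_congr rfl fun j _ => ?_
  rw [Derivation.leibniz, smul_eq_mul, smul_eq_mul]
  ring

theorem V_lin (v : Fin 3 → MvPolynomial (Fin 3) K) (a : Fin 3 → K) : V v (lin a) = evl a v := by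
  classical
  unfold V lin evl
  refine Finset.sum_congr rfl fun j _ => ?_
  have : pderiv j (∑ i, C (a i) * X i : MvPolynomial (Fin 3) K) = C (a j) := by
    rw [map_sum, Finset.sum_eq_single j]
    · rw [Derivation.leibniz, pderiv_C, pderiv_X_self, smul_zero, add_zero, smul_eq_mul, mul_one]
    · intro i _ hi
      rw [Derivation.leibniz, pderiv_C, pderiv_X_of_ne hi, smul_zero, smul_zero, add_zero]
    · intro h
      exact absurd (Finset.mem_univ j) h
  rw [this, mul_comm]

theorem V_prod {ι : Type} [DecidableEq ι] (v : Fin 3 → MvPolynomial (Fin 3) K) (s : Finset ι)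
    (F : ι → MvPolynomial (Fin 3) K) :
    V v (∏ i ∈ s, F i) = ∑ i ∈ s, (∏ k ∈ s.erase i, F k) * V v (F i) := by
  induction s using Finset.induction_on with
  | empty =>
    unfold V
    simp
  | insert a s ha ih =>
    rw [Finset.prod_insert ha, V_mul, ih, Finset.sum_insert ha, Finset.erase_insert ha, Finset.mul_sum,
      add_comm]
    refine congrArg₂ _ rfl (Finset.sum_congr rfl fun i hi => ?_)
    have hia : a ≠ i := fun h => ha (h ▸ hi)
    rw [Finset.erase_insert_of_ne hia, Finset.prod_insert (fun h => ha (Finset.mem_of_mem_erase h))]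
    ring

theorem V_X (f : MvPolynomial (Fin 3) K) {n : ℕ} (hf : f.IsHomogeneous n) :
    V X f = n * f := by
  unfold V
  rw [hf.sum_X_mul_pderiv, nsmul_eq_mul]

theorem lin_hom (a : Fin 3 → K) : (lin a).IsHomogeneous 1 := by
  unfold lin
  refine IsHomogeneous.sum _ _ _ fun i _ => ?_
  simpa using (isHomogeneous_C (Fin 3) (a i)).mul (isHomogeneous_X K i)

theorem f_hom {n : ℕ} (A : Fin n → Fin 3 → K) : (∏ i, lin (A i)).IsHomogeneous n := by
  have := MvPolynomial.IsHomogeneous.prod (Finset.univ : Finset (Fin n)) (fun i => lin (A i))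
    (fun _ => 1) (fun i _ => lin_hom (A i))
  simpa using this

end

theorem eqv : Pool.Agent.H17.GS.S_EQV := by
  intro K _ _ n A hA hn e
  classical
  set f := ∏ i, lin (A i) with hf
  have hf0 : f ≠ 0 := Finset.prod_ne_zero_iff.2 fun i _ => lin_ne_zero (hA.1 i)
  have hfh : f.IsHomogeneous n := f_hom A
  have hn0 : ((n : ℕ) : MvPolynomial (Fin 3) K) ≠ 0 := by
    exact_mod_cast (by omega : n ≠ 0)
  have hVf : ∀ v, V v f = ∑ i, (∏ k ∈ Finset.univ.erase i, lin (A k)) * evl (A i) v := by
    intro v
    rw [hf, V_prod]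
    exact Finset.sum_congr rfl fun i _ => by rw [V_lin]
  constructor
  · rintro ⟨v, hv, hvh, hv0⟩
    have hv' : V v f = 0 := hv
    refine ⟨v, ?_, hvh, ?_⟩
    · intro i
      have hp := (pri K 3 (A i) (hA.1 i)).1
      have h1 := hVf v
      rw [hv', ← Finset.add_sum_erase _ _ (Finset.mem_univ i)] at h1
      have h2 : lin (A i) ∣ ∑ x ∈ Finset.univ.erase i,
          (∏ k ∈ Finset.univ.erase x, lin (A k)) * evl (A x) v := by
        refine Finset.dvd_sum fun x hx => Dvd.dvd.mul_right ?_ _
        exact Finset.dvd_prod_of_mem (fun k => lin (A k))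
          (Finset.mem_erase.2 ⟨(Finset.ne_of_mem_erase hx).symm, Finset.mem_univ i⟩)
      have h3 : lin (A i) ∣ (∏ k ∈ Finset.univ.erase i, lin (A k)) * evl (A i) v := by
        have h4 : (∏ k ∈ Finset.univ.erase i, lin (A k)) * evl (A i) v =
            -∑ x ∈ Finset.univ.erase i, (∏ k ∈ Finset.univ.erase x, lin (A k)) * evl (A x) v :=
          eq_neg_of_add_eq_zero_left h1.symm
        rw [h4]
        exact (dvd_neg).2 h2
      rcases hp.dvd_or_dvd h3 with h4 | h4
      · exfalso
        obtain ⟨k, hk, hd⟩ := (Prime.dvd_finset_prod_iff hp _).1 h4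
        obtain ⟨c, hc⟩ := (pri K 3 (A i) (hA.1 i)).2 _ hd
        exact hA.2 k i (Finset.ne_of_mem_erase hk) c hc
      · exact h4
    · by_contra hcon
      push_neg at hcon
      apply hv0
      funext i
      have h1 : X i * V v f = v i * V X f := by
        unfold V
        rw [Finset.mul_sum, Finset.mul_sum]
        refine Finset.sum_congr rfl fun j _ => ?_
        rw [← mul_assoc, hcon i j]
        ring
      rw [hv', mul_zero, V_X f hfh] at h1
      have h2 := mul_eq_zero.1 h1.symm
      rcases h2 with h2 | h2
      · exact h2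
      · exact absurd h2 (mul_ne_zero hn0 hf0)
  · rintro ⟨v, hv, hvh, i₀, j₀, hne⟩
    have hdvd : f ∣ V v f := by
      rw [hVf v]
      refine Finset.dvd_sum fun i _ => ?_
      rw [hf, ← Finset.prod_erase_mul Finset.univ _ (Finset.mem_univ i)]
      exact mul_dvd_mul_left _ (hv i)
    obtain ⟨g₀, hg₀⟩ := hdvd
    have hVh : (V v f).IsHomogeneous (e + (n - 1)) := by
      unfold V
      exact IsHomogeneous.sum _ _ _ fun j _ => (hvh j).mul hfh.pderiv
    set g := (if n ≤ e + (n - 1) then homogeneousComponent (e + (n - 1) - n) g₀ else 0) with hg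
    have hgf : V v f = g * f := by
      rw [hg, ← comp_mul g₀ f hfh, mul_comm g₀ f, ← hg₀, homogeneousComponent_of_mem hVh, if_pos rfl]
    have hgX : ∀ j, (g * X j).IsHomogeneous e := by
      intro j
      by_cases h : n ≤ e + (n - 1)
      · rw [hg, if_pos h]
        have h1 := (homogeneousComponent_isHomogeneous (e + (n - 1) - n) g₀).mul (isHomogeneous_X K j)
        have h2 : e + (n - 1) - n + 1 = e := by omega
        rwa [h2] at h1
      · rw [hg, if_neg h, zero_mul]
        exact isHomogeneous_zero _ _ _
    refine ⟨fun j => (n : MvPolynomial (Fin 3) K) * v j - g * X j, ?_, ?_, ?_⟩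
    · show ∑ j, ((n : MvPolynomial (Fin 3) K) * v j - g * X j) * pderiv j f = 0
      have h1 : ∑ j, ((n : MvPolynomial (Fin 3) K) * v j - g * X j) * pderiv j f =
          n * V v f - g * V X f := by
        unfold V
        rw [Finset.mul_sum, Finset.mul_sum, ← Finset.sum_sub_distrib]
        exact Finset.sum_congr rfl fun j _ => by ring
      rw [h1, V_X f hfh, hgf]
      ring
    · intro j
      have h1 : ((n : MvPolynomial (Fin 3) K) * v j).IsHomogeneous e := by
        have h2 : (n : MvPolynomial (Fin 3) K) = C (n : K) := by simp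
        rw [h2]
        exact (hvh j).C_mul _
      exact h1.sub (hgX j)
    · intro h0
      apply hne
      have h1 : ∀ j, (n : MvPolynomial (Fin 3) K) * v j = g * X j := fun j =>
        sub_eq_zero.1 (congrFun h0 j)
      refine mul_left_cancel₀ hn0 ?_
      have e1 : (n : MvPolynomial (Fin 3) K) * (X i₀ * v j₀) =
          X i₀ * ((n : MvPolynomial (Fin 3) K) * v j₀) := by ring
      have e2 : (n : MvPolynomial (Fin 3) K) * (X j₀ * v i₀) =
          X j₀ * ((n : MvPolynomial (Fin 3) K) * v i₀) := by ring
      rw [e1, e2, h1, h1]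
      ring

end Pool.Agent.H23.GS
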